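import Mathlib
import Pool.Agent.K9h9.CB.Par
import Pool.Agent.K9h9.App2N

/-!
# The equation, the lower bounds proportional to the exponents, and the main inequality
-/

set_option autoImplicit false

namespace Pool.Agent.K9h9.CB

/-- one of `x ^ p`, `y ^ q`, `z ^ r` is the sum of the two others -/
def Eqn (x y z p q r : ℕ) : Prop :=
  x ^ p + y ^ q = z ^ r ∨ x ^ p + z ^ r = y ^ q ∨ y ^ q + z ^ r = x ^ p

lemma Eqn.swap {x y z p q r : ℕ} (h : Eqn x y z p q r) : Eqn x z y p r q := by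
  rcases h with h | h | h
  · exact Or.inr (Or.inl h)
  · exact Or.inl h
  · exact Or.inr (Or.inr (by rw [add_comm]; exact h))

/-- in terms of integers with signs -/
lemma Eqn.signs {x y z p q r : ℕ} (h : Eqn x y z p q r) :
    ∃ s t : ℤ, (s = 1 ∨ s = -1) ∧ (t = 1 ∨ t = -1) ∧ (z : ℤ) ^ r = s * x ^ p + t * y ^ q := by
  rcases h with h | h | h
  · refine ⟨1, 1, Or.inl rfl, Or.inl rfl, ?_⟩
    rw [one_mul, one_mul]
    exact_mod_cast h.symm
  · refine ⟨-1, 1, Or.inr rfl, Or.inl rfl, ?_⟩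
    have h1 : (x : ℤ) ^ p + z ^ r = y ^ q := by exact_mod_cast h
    linarith
  · refine ⟨1, -1, Or.inl rfl, Or.inr rfl, ?_⟩
    have h1 : (y : ℤ) ^ q + z ^ r = x ^ p := by exact_mod_cast h
    linarith

lemma Eqn.le {x y z p q r : ℕ} (h : Eqn x y z p q r) : z ^ r ≤ x ^ p + y ^ q := by
  rcases h with h | h | h <;> omega

/-- the squares are congruent -/
lemma Eqn.modEq {x y z p q r D : ℕ} (h : Eqn x y z p q r) (hD : D ∣ x) :
    (z ^ 2) ^ r ≡ (y ^ 2) ^ q [MOD D ^ p] := by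
  obtain ⟨s, t, hs, ht, hst⟩ := h.signs
  have hD' : (D : ℤ) ^ p ∣ (x : ℤ) ^ p := pow_dvd_pow_of_dvd (by exact_mod_cast hD) p
  have hs2 : s * s = 1 := by rcases hs with rfl | rfl <;> norm_num
  have ht2 : t * t = 1 := by rcases ht with rfl | rfl <;> norm_num
  apply Nat.ModEq.symm
  rw [Nat.modEq_iff_dvd]
  push_cast
  have h1 : ((z : ℤ) ^ 2) ^ r - ((y : ℤ) ^ 2) ^ q =
      (x : ℤ) ^ p * (x ^ p + 2 * s * t * y ^ q) := by
    have h2 : ((z : ℤ) ^ 2) ^ r = ((z : ℤ) ^ r) ^ 2 := by rw [← pow_mul, ← pow_mul, mul_comm]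
    have h3 : ((y : ℤ) ^ 2) ^ q = ((y : ℤ) ^ q) ^ 2 := by rw [← pow_mul, ← pow_mul, mul_comm]
    rw [h2, h3, hst]
    linear_combination (x : ℤ) ^ p * x ^ p * hs2 + (y : ℤ) ^ q * y ^ q * ht2
  rw [h1]
  exact hD'.mul_right _

lemma modEq_one_of_dvd {D y : ℕ} (hy : 2 ≤ y) (h : D ∣ y ^ 2 - 1) : y ^ 2 ≡ 1 [MOD D] := by
  have h1 : 1 ≤ y ^ 2 := Nat.one_le_pow _ _ (by omega)
  exact ((Nat.modEq_iff_dvd' h1).mpr h).symm

/-- Two bases whose squares are congruent to one modulo a divisor `D` of the third base: they are at least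
powers of `D` with exponents proportional to the exponents of the equation. -/
theorem partA (κ : ℕ) : ∃ C : ℕ, ∀ x y z p q r D : ℕ, 2 ≤ D → D ∣ x → 2 ≤ y → 2 ≤ z →
    D ∣ y ^ 2 - 1 → D ∣ z ^ 2 - 1 → 0 < q → 0 < r → Nat.Coprime q r → Eqn x y z p q r →
    x ≤ D ^ κ → y ^ q ≤ D ^ (κ * p) → D ^ r ≤ y ^ C ∧ D ^ q ≤ z ^ C := by
  obtain ⟨C, hC⟩ := lower (2 * (κ + 1)) (by omega)
  refine ⟨2 * C, ?_⟩
  intro x y z p q r D hD hDx hy hz hDy hDz hq hr hcop heq hx hyq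
  have hD0 : 0 < D := by omega
  have hp : 1 ≤ p := by
    by_contra hcon
    have h1 : p = 0 := by omega
    rw [h1, mul_zero, pow_zero] at hyq
    have h2 := Nat.one_lt_pow hq.ne' (show 1 < y by omega)
    omega
  have hxp : x ^ p ≤ D ^ (κ * p) := by
    rw [pow_mul]
    exact Nat.pow_le_pow_left hx p
  have hzr : z ^ r ≤ D ^ ((κ + 1) * p) := by
    calc z ^ r ≤ x ^ p + y ^ q := heq.le
      _ ≤ 2 * D ^ (κ * p) := by omega
      _ ≤ D ^ p * D ^ (κ * p) := by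
          apply Nat.mul_le_mul_right
          calc 2 ≤ D := hD
            _ = D ^ 1 := (pow_one D).symm
            _ ≤ D ^ p := Nat.pow_le_pow_right hD0 hp
      _ = _ := by rw [← pow_add]; congr 1; ring
  have hb : (z ^ 2) ^ r ≤ D ^ (2 * (κ + 1) * p) := by
    calc (z ^ 2) ^ r = (z ^ r) ^ 2 := by rw [← pow_mul, ← pow_mul, mul_comm]
      _ ≤ (D ^ ((κ + 1) * p)) ^ 2 := Nat.pow_le_pow_left hzr 2
      _ = _ := by rw [← pow_mul]; congr 1; ring
  have hc : (y ^ 2) ^ q ≤ D ^ (2 * (κ + 1) * p) := by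
    calc (y ^ 2) ^ q = (y ^ q) ^ 2 := by rw [← pow_mul, ← pow_mul, mul_comm]
      _ ≤ (D ^ (κ * p)) ^ 2 := Nat.pow_le_pow_left hyq 2
      _ ≤ _ := by
        rw [← pow_mul]
        apply Nat.pow_le_pow_right hD0
        nlinarith
  have hy2 : y ^ 2 ≠ 1 := by
    have := Nat.one_lt_pow two_ne_zero (show 1 < y by omega)
    omega
  have hz2 : z ^ 2 ≠ 1 := by
    have := Nat.one_lt_pow two_ne_zero (show 1 < z by omega)
    omega
  have hyp : 0 < y ^ 2 := by positivity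
  have hzp : 0 < z ^ 2 := by positivity
  have hrel := heq.modEq hDx
  constructor
  · have h1 := hC D (z ^ 2) (y ^ 2) q r p hD (modEq_one_of_dvd hz hDz) (modEq_one_of_dvd hy hDy) hz2 hy2
      hzp hyp hrel hcop hq hr hb hc
    rwa [← pow_mul] at h1
  · have h1 := hC D (y ^ 2) (z ^ 2) r q p hD (modEq_one_of_dvd hy hDy) (modEq_one_of_dvd hz hDz) hy2 hz2
      hyp hzp hrel.symm hcop.symm hr hq hc hb
    rwa [← pow_mul] at h1

lemma sq_of_pm {D y : ℕ} (hy : 2 ≤ y) (h : (D : ℤ) ∣ y - 1 ∨ (D : ℤ) ∣ y + 1) : D ∣ y ^ 2 - 1 := by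
  have h1 : 1 ≤ y ^ 2 := Nat.one_le_pow _ _ (by omega)
  have h2 : (D : ℤ) ∣ (y : ℤ) ^ 2 - 1 := by
    have h3 : (y : ℤ) ^ 2 - 1 = (y - 1) * (y + 1) := by ring
    rw [h3]
    rcases h with h | h
    · exact h.mul_right _
    · exact h.mul_left _
  have h3 : ((y ^ 2 - 1 : ℕ) : ℤ) = (y : ℤ) ^ 2 - 1 := by
    rw [Nat.cast_sub h1]
    push_cast
    rfl
  rw [← h3] at h2
  exact_mod_cast h2

/-- the main inequality -/
theorem core {x y z D p q r L K M G : ℕ} (hr : r.Prime) (hr2 : r ≠ 2) (hrq : ¬ r ∣ q) (hL : 1 ≤ L)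
    (hLr : L ≤ r) (hK : 1 ≤ K) (hLM : L ≤ M) (hM : M < L * K)
    (hG : (L - 1) * q + (K - 1) * r ≤ G * r) (hMp : M ≤ p) (hD3 : 3 ≤ D) (hrD : ¬ r ∣ D)
    (hDx : D ∣ x) (hy : 2 ≤ y) (hz : 2 ≤ z) (hy1 : (D : ℤ) ∣ y - 1 ∨ (D : ℤ) ∣ y + 1)
    (hz1 : (D : ℤ) ∣ z - 1 ∨ (D : ℤ) ∣ z + 1) (heq : Eqn x y z p q r) :
    ∃ e : ℕ, e ≤ M ∧ M ≤ e + (L * K + L - M - 2) ∧
      (D : ℝ) ^ e ≤ CC r L K M G * ((z : ℝ) ^ (L - 1) * (y : ℝ) ^ (K - 1)) := by
  obtain ⟨s, t, hs, ht, hst⟩ := heq.signs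
  have hodd : Odd r := hr.odd_of_ne_two hr2
  have ht2 : t * t = 1 := by rcases ht with rfl | rfl <;> norm_num
  have htr : t ^ r = t := by
    rcases ht with rfl | rfl
    · exact one_pow r
    · exact hodd.neg_one_pow
  -- the residues
  obtain ⟨A, hA, hDA⟩ : ∃ A : ℤ, (A = 1 ∨ A = -1) ∧ (D : ℤ) ∣ y - A := by
    rcases hy1 with h | h
    · exact ⟨1, Or.inl rfl, h⟩
    · exact ⟨-1, Or.inr rfl, by rw [sub_neg_eq_add]; exact h⟩
  obtain ⟨β, hβ, hDβ⟩ : ∃ β : ℤ, (β = 1 ∨ β = -1) ∧ (D : ℤ) ∣ t * z - β := by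
    obtain ⟨γ, hγ, hDγ⟩ : ∃ γ : ℤ, (γ = 1 ∨ γ = -1) ∧ (D : ℤ) ∣ z - γ := by
      rcases hz1 with h | h
      · exact ⟨1, Or.inl rfl, h⟩
      · exact ⟨-1, Or.inr rfl, by rw [sub_neg_eq_add]; exact h⟩
    refine ⟨t * γ, ?_, ?_⟩
    · rcases ht with rfl | rfl <;> rcases hγ with rfl | rfl <;> norm_num
    · rw [← mul_sub]
      exact hDγ.mul_left _
  have hpm : ∀ u : ℤ, (u = 1 ∨ u = -1) → u ^ r = u := by
    rintro u (rfl | rfl)
    · exact one_pow r
    · exact hodd.neg_one_pow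
  have hAq : A ^ q = 1 ∨ A ^ q = -1 := by
    rcases hA with h | h
    · left
      rw [h, one_pow]
    · rw [h]
      exact neg_one_pow_eq_or ℤ q
  have hbr : (t * z) ^ r = t * s * x ^ p + y ^ q := by
    rw [mul_pow, htr, hst]
    linear_combination (y : ℤ) ^ q * ht2
  have hM0 : 1 ≤ M := hL.trans hLM
  have hp0 : p ≠ 0 := by omega
  have hDxz : (D : ℤ) ∣ (x : ℤ) := by exact_mod_cast hDx
  have hβA : β = A ^ q := by
    have h1 : (D : ℤ) ∣ (t * z) ^ r - β := by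
      have h2 := hDβ.trans (sub_dvd_pow_sub_pow (t * z) β r)
      rwa [hpm β hβ] at h2
    have h2 : (D : ℤ) ∣ (y : ℤ) ^ q - A ^ q := hDA.trans (sub_dvd_pow_sub_pow _ _ q)
    have h3 : (D : ℤ) ∣ t * s * (x : ℤ) ^ p := (hDxz.trans (dvd_pow_self _ hp0)).mul_left _
    have h4 : (D : ℤ) ∣ A ^ q - β := by
      have h5 := dvd_sub (dvd_sub h1 h2) h3
      have h6 : (t * (z : ℤ)) ^ r - β - ((y : ℤ) ^ q - A ^ q) - t * s * (x : ℤ) ^ p = A ^ q - β := by
        rw [hbr]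
        ring
      rwa [h6] at h5
    by_contra hne
    have h5 := Int.le_of_dvd (abs_pos.mpr (sub_ne_zero.mpr (Ne.symm hne))) ((dvd_abs _ _).mpr h4)
    have h6 : |A ^ q - β| ≤ 2 := by
      rcases hAq with h7 | h7 <;> rcases hβ with h8 | h8 <;> rw [h7, h8] <;> norm_num
    have h7 : (3 : ℤ) ≤ D := by exact_mod_cast hD3
    linarith
  have hA0 : A ≠ 0 := by rcases hA with h | h <;> rw [h] <;> norm_num
  have hyA : (y : ℤ) ≠ A := by
    have : (2 : ℤ) ≤ y := by exact_mod_cast hy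
    rcases hA with h | h <;> rw [h] <;> linarith
  have hDr : IsCoprime (D : ℤ) (r : ℤ) := by
    rw [Nat.isCoprime_iff_coprime, Nat.coprime_comm]
    exact (Nat.Prime.coprime_iff_not_dvd hr).mpr hrD
  have hDA1 : IsCoprime (D : ℤ) A := by
    rcases hA with h | h
    · rw [h]; exact isCoprime_one_right
    · rw [h]; exact isCoprime_one_right.neg_right
  have hpow : (D : ℤ) ^ M ∣ (t * z) ^ r * A ^ q - (y : ℤ) ^ q * (A ^ q) ^ r := by
    rw [hpm _ hAq, hbr]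
    have h1 : (t * s * (x : ℤ) ^ p + y ^ q) * A ^ q - y ^ q * A ^ q = t * s * A ^ q * x ^ p := by ring
    rw [h1]
    apply Dvd.dvd.mul_left
    exact (pow_dvd_pow _ hMp).trans (pow_dvd_pow_of_dvd hDxz p)
  have htz : t * (z : ℤ) ≠ 0 := by
    have h1 : (z : ℤ) ≠ 0 := by exact_mod_cast (show z ≠ 0 by omega)
    rcases ht with h | h <;> rw [h] <;> simpa using h1
  have hyR : (2 : ℝ) ≤ y := by exact_mod_cast hy
  have hzR : (2 : ℝ) ≤ z := by exact_mod_cast hz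
  obtain ⟨e, he1, he2, he3, -⟩ := main_ineq_nil (Hb := z) (Hx := y) hr hr2 hrq hL hLr hK hLM hM hG htz
    (pow_ne_zero q hA0) (show (y : ℤ) ≠ 0 by exact_mod_cast (show y ≠ 0 by omega)) hA0 hyA
    ((hDr.mul_right hDA1).mul_right (hDA1.pow_right)) hDA hpow
    ⟨1, by rw [pow_one, ← hβA]; exact hDβ⟩ (by
      intro h1
      exfalso
      rcases hA with h | h
      · rw [h] at h1
        push_cast at h1
        rw [div_one] at h1
        have := (le_abs_self _).trans h1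
        linarith
      · rw [h] at h1
        push_cast at h1
        rw [div_neg, div_one] at h1
        have h2 := (neg_le_abs _).trans h1
        linarith)
    (by
      rcases ht with h | h <;> rw [h] <;> push_cast <;> simp) (by
      rcases hAq with h | h <;> rw [h] <;> push_cast <;> simp <;> linarith) (by
      simp) (by
      rcases hA with h | h <;> rw [h] <;> push_cast <;> simp <;> linarith)
  exact ⟨e, he1, he2, he3⟩

end Pool.Agent.K9h9.CB
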