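import Mathlib
import Pool.Agent.K9h9.CB.Core
import Pool.Agent.K9h9.Params

/-!
# The lower bound by Padé approximation
-/

set_option autoImplicit false

namespace Pool.Agent.K9h9.CB

lemma final_real {L g a ℓ θ ε X e r c p K : ℝ} (hL : 2 ≤ L) (hg : 1 ≤ g) (hga : g ≤ a)
    (hεg : 4 * L ≤ ε * g) (hθ : 1 ≤ θ) (hLr : L ≤ r) (hε : 0 < ε) (hℓ : 0 ≤ ℓ)
    (he : L * g * a - L * a - L + 2 ≤ e)
    (hmain : e * ℓ ≤ c + (L - 1) * ((1 + θ * p * ℓ) / r) + (K - 1) * X)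
    (hp : p ≤ L * g * (a + 1)) (hK : K = (g + 1) * a)
    (hX : X ≤ (L * (1 - θ * (L - 1) / r) - ε) * ℓ) (hX0 : 0 ≤ X) :
    L * a * ℓ ≤ c + 1 := by
  have hr0 : 0 < r := by linarith
  obtain ⟨u, hu⟩ : ∃ u, u = θ * (L - 1) / r := ⟨_, rfl⟩
  have hu0 : 0 ≤ u := by
    rw [hu]
    apply div_nonneg _ hr0.le
    exact mul_nonneg (by linarith) (by linarith)
  rw [← hu] at hX
  have h1 : (L - 1) * ((1 + θ * p * ℓ) / r) = (L - 1) / r + u * p * ℓ := by
    rw [hu]
    field_simp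
  have h2 : (L - 1) / r ≤ 1 := by
    rw [div_le_one hr0]
    linarith
  have h3 : u * p * ℓ ≤ u * (L * g * (a + 1)) * ℓ := by gcongr
  have h4 : (K - 1) * X ≤ (g + 1) * a * ((L * (1 - u) - ε) * ℓ) := by
    calc (K - 1) * X ≤ K * X := by nlinarith
      _ ≤ K * ((L * (1 - u) - ε) * ℓ) := by
          apply mul_le_mul_of_nonneg_left hX
          rw [hK]
          nlinarith
      _ = _ := by rw [hK]
  have h5 : (L * g * a - L * a - L + 2) * ℓ ≤ e * ℓ := mul_le_mul_of_nonneg_right he hℓ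
  rw [h1] at hmain
  have h6 : ℓ * (-2 * (L * a) - L + 2 + u * L * (a - g) + ε * (g + 1) * a) ≤ c + 1 := by
    have h7 : ℓ * (-2 * (L * a) - L + 2 + u * L * (a - g) + ε * (g + 1) * a) =
      (L * g * a - L * a - L + 2) * ℓ - u * (L * g * (a + 1)) * ℓ -
        (g + 1) * a * ((L * (1 - u) - ε) * ℓ) := by ring
    rw [h7]
    linarith
  have h8 : L * a ≤ -2 * (L * a) - L + 2 + u * L * (a - g) + ε * (g + 1) * a := by
    have h9 : 0 ≤ u * L * (a - g) := by
      apply mul_nonneg (mul_nonneg hu0 (by linarith)) (by linarith)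
    have h10 : 4 * L * a ≤ ε * g * a := mul_le_mul_of_nonneg_right hεg (by linarith)
    have h11 : 0 ≤ ε * a := by
      apply mul_nonneg hε.le
      linarith
    nlinarith
  calc L * a * ℓ = ℓ * (L * a) := by ring
    _ ≤ ℓ * (-2 * (L * a) - L + 2 + u * L * (a - g) + ε * (g + 1) * a) :=
        mul_le_mul_of_nonneg_left h8 hℓ
    _ ≤ _ := h6

lemma pred_le_of_pm {D y : ℕ} (hy : 2 ≤ y) (h : (D : ℤ) ∣ y - 1 ∨ (D : ℤ) ∣ y + 1) : D ≤ y + 1 := by
  rcases h with h | h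
  · have h1 := Int.le_of_dvd (by
      have : (2 : ℤ) ≤ y := by exact_mod_cast hy
      linarith) h
    omega
  · have h1 := Int.le_of_dvd (by positivity) h
    omega

lemma q_le {D y q p κ : ℕ} (hD : 3 ≤ D) (hDy : D ≤ y + 1) (hyq : y ^ q ≤ D ^ (κ * p)) :
    q ≤ 2 * (κ * p) := by
  have h1 : D ≤ y ^ 2 := by nlinarith
  have h2 : D ^ q ≤ D ^ (2 * (κ * p)) := by
    calc D ^ q ≤ (y ^ 2) ^ q := Nat.pow_le_pow_left h1 q
      _ = (y ^ q) ^ 2 := by rw [← pow_mul, ← pow_mul, mul_comm]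
      _ ≤ (D ^ (κ * p)) ^ 2 := Nat.pow_le_pow_left hyq 2
      _ = _ := by rw [← pow_mul]; congr 1; ring
  exact (Nat.pow_le_pow_iff_right (by omega)).mp h2

theorem partB (θ ε : ℝ) (hθ : 1 ≤ θ) (hε : 0 < ε) (L : ℕ) (hL : 2 ≤ L) : ∃ D₀ P₀ : ℕ,
    ∀ x y z p q r D : ℕ, D₀ ≤ D → P₀ ≤ p → r.Prime → r ≠ 2 → L ≤ r → ¬ r ∣ q → ¬ r ∣ D → D ∣ x →
      2 ≤ y → 2 ≤ z → ((D : ℤ) ∣ y - 1 ∨ (D : ℤ) ∣ y + 1) → ((D : ℤ) ∣ z - 1 ∨ (D : ℤ) ∣ z + 1) →
      Eqn x y z p q r → (x : ℝ) ≤ (D : ℝ) ^ θ → (y : ℝ) ^ q ≤ (D : ℝ) ^ (θ * p) →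
      (D : ℝ) ^ (L * (1 - θ * (L - 1) / r) - ε) ≤ y := by
  obtain ⟨κ, hκ⟩ : ∃ κ : ℕ, κ = ⌈θ⌉₊ := ⟨_, rfl⟩
  have hθκ : θ ≤ κ := by rw [hκ]; exact Nat.le_ceil θ
  have hκ1 : 1 ≤ κ := by
    have : (1 : ℝ) ≤ κ := hθ.trans hθκ
    exact_mod_cast this
  obtain ⟨C, hC⟩ := partA κ
  obtain ⟨g, hg⟩ : ∃ g : ℕ, g = ⌈4 * L / ε⌉₊ + 1 := ⟨_, rfl⟩
  have hg1 : 1 ≤ g := by rw [hg]; exact Nat.le_add_left _ _
  have hεg : 4 * (L : ℝ) ≤ ε * g := by
    have h1 : 4 * (L : ℝ) / ε ≤ g := by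
      rw [hg]
      push_cast
      exact (Nat.le_ceil _).trans (by linarith)
    rw [div_le_iff₀ hε] at h1
    linarith
  obtain ⟨C₁, hC₁⟩ : ∃ C₁ : ℝ, C₁ = ((g : ℝ) + 1) * (10 * L + 10) * (4 * κ * L * g) := ⟨_, rfl⟩
  have hC₁0 : 0 ≤ C₁ := by rw [hC₁]; positivity
  refine ⟨⌈Real.exp (C₁ * (L * C) + 2)⌉₊ + 3, L * g * g, ?_⟩
  intro x y z p q r D hD hp hr hr2 hLr hrq hrD hDx hy hz hy1 hz1 heq hx hyq
  have hD3 : 3 ≤ D := (Nat.le_add_left _ _).trans hD
  have hD2 : 2 ≤ D := by omega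
  have hDR : (3 : ℝ) ≤ D := by exact_mod_cast hD3
  have hD0R : (0 : ℝ) < D := by linarith
  obtain ⟨ℓ, hℓ⟩ : ∃ ℓ, ℓ = Real.log D := ⟨_, rfl⟩
  have hℓlow : C₁ * (L * C) + 2 ≤ ℓ := by
    rw [hℓ, Real.le_log_iff_exp_le hD0R]
    have h1 : ((⌈Real.exp (C₁ * (L * C) + 2)⌉₊ + 3 : ℕ) : ℝ) ≤ D := by exact_mod_cast hD
    push_cast at h1
    linarith [Nat.le_ceil (Real.exp (C₁ * (L * C) + 2))]
  have hℓ0 : 0 < ℓ := by
    have : 0 ≤ C₁ * (L * C) := by positivity
    linarith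
  have hq0 : q ≠ 0 := by
    rintro rfl
    exact hrq (dvd_zero r)
  have hr0 : 0 < r := hr.pos
  have hr3 : 3 ≤ r := by
    have := hr.two_le
    omega
  have hrR : (3 : ℝ) ≤ r := by exact_mod_cast hr3
  have hyR : (2 : ℝ) ≤ y := by exact_mod_cast hy
  have hzR : (2 : ℝ) ≤ z := by exact_mod_cast hz
  have hcop : Nat.Coprime q r := by
    rw [Nat.coprime_comm]
    exact (Nat.Prime.coprime_iff_not_dvd hr).mpr hrq
  have hDpow : ∀ u v : ℝ, u ≤ v → (D : ℝ) ^ u ≤ (D : ℝ) ^ v := fun u v h =>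
    Real.rpow_le_rpow_of_exponent_le (by linarith) h
  have hxκ : x ≤ D ^ κ := by
    have h1 : (x : ℝ) ≤ (D : ℝ) ^ (κ : ℝ) := hx.trans (hDpow _ _ hθκ)
    rw [Real.rpow_natCast] at h1
    exact_mod_cast h1
  have hyκ : y ^ q ≤ D ^ (κ * p) := by
    have h1 : (y : ℝ) ^ q ≤ (D : ℝ) ^ ((κ * p : ℕ) : ℝ) := by
      refine hyq.trans (hDpow _ _ ?_)
      push_cast
      exact mul_le_mul_of_nonneg_right hθκ (Nat.cast_nonneg _)
    rw [Real.rpow_natCast] at h1
    exact_mod_cast h1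
  by_contra hcon
  push Not at hcon
  obtain ⟨X, hX⟩ : ∃ X, X = Real.log y := ⟨_, rfl⟩
  have hX0 : 0 ≤ X := by
    rw [hX]
    exact Real.log_nonneg (by linarith)
  have hXlt : X < (L * (1 - θ * (L - 1) / r) - ε) * ℓ := by
    rw [hX, hℓ, ← Real.log_rpow hD0R]
    exact Real.log_lt_log (by linarith) hcon
  have hLR : (2 : ℝ) ≤ L := by exact_mod_cast hL
  have hLrR : (L : ℝ) ≤ r := by exact_mod_cast hLr
  have hu0 : 0 ≤ θ * (L - 1) / (r : ℝ) := by
    apply div_nonneg _ (by linarith)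
    exact mul_nonneg (by linarith) (by linarith)
  have hyL : y < D ^ L := by
    have h1 : X < L * ℓ := by
      refine hXlt.trans_le (mul_le_mul_of_nonneg_right ?_ hℓ0.le)
      nlinarith
    have h2 : (y : ℝ) < (D : ℝ) ^ L := by
      rw [← Real.rpow_natCast]
      apply (Real.log_lt_log_iff (by linarith) (by positivity)).mp
      rw [Real.log_rpow hD0R, ← hX, ← hℓ]
      exact h1
    exact_mod_cast h2
  have hrLC : r ≤ L * C := by
    have h1 := (hC x y z p q r D hD2 hDx hy hz (sq_of_pm hy hy1) (sq_of_pm hz hz1)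
      (Nat.pos_of_ne_zero hq0) hr0 hcop heq hxκ hyκ).1
    have h2 : D ^ r ≤ D ^ (L * C) := by
      rw [pow_mul]
      exact h1.trans (Nat.pow_le_pow_left hyL.le C)
    exact (Nat.pow_le_pow_iff_right (by omega)).mp h2
  -- the parameters
  obtain ⟨a, ha⟩ : ∃ a, a = p / (L * g) := ⟨_, rfl⟩
  have hLg : 0 < L * g := by positivity
  have hga : g ≤ a := by
    rw [ha, Nat.le_div_iff_mul_le hLg]
    calc g * (L * g) = L * g * g := by ring
      _ ≤ p := hp
  have ha1 : 1 ≤ a := hg1.trans hga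
  have hMp : L * g * a ≤ p := by
    rw [ha]
    exact Nat.mul_div_le p (L * g)
  have hpa : p ≤ L * g * (a + 1) := by
    have h1 := Nat.lt_div_mul_add (a := p) hLg
    rw [← ha] at h1
    have h2 : L * g * (a + 1) = a * (L * g) + L * g := by ring
    omega
  obtain ⟨K, hK⟩ : ∃ K, K = (g + 1) * a := ⟨_, rfl⟩
  obtain ⟨M, hM⟩ : ∃ M, M = L * g * a := ⟨_, rfl⟩
  have hLKM : L * K = M + L * a := by rw [hK, hM]; ring
  have hLa : 0 < L * a := by positivity
  have hK1 : 1 ≤ K := by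
    rw [hK]
    have : 0 < (g + 1) * a := by positivity
    omega
  have hq2 := q_le hD3 (pred_le_of_pm hy hy1) hyκ
  obtain ⟨G, hG⟩ : ∃ G, G = (L - 1) * q + K := ⟨_, rfl⟩
  obtain ⟨e, he1, he2, he3⟩ := core (K := K) (M := M) (G := G) hr hr2 hrq (show 1 ≤ L by omega) hLr hK1
    (by
      rw [hM]
      calc L = L * 1 := (mul_one L).symm
        _ ≤ L * (g * a) := Nat.mul_le_mul_left _ (by have : 0 < g * a := by positivity
                                                     omega)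
        _ = _ := by ring) (by omega)
    (by
      rw [hG]
      have h1 : (K - 1) * r ≤ K * r := Nat.mul_le_mul_right _ (Nat.sub_le _ _)
      have h2 : (L - 1) * q ≤ (L - 1) * q * r := Nat.le_mul_of_pos_right _ hr0
      calc (L - 1) * q + (K - 1) * r ≤ (L - 1) * q * r + K * r := by omega
        _ = _ := by ring) (by rw [hM]; exact hMp) hD3 hrD hDx hy hz hy1 hz1 heq
  -- logarithms
  have he4 : L * g * a ≤ e + (L * a + L - 2) := by omega
  have he5 : (L : ℝ) * g * a - L * a - L + 2 ≤ e := by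
    have h1 : L * g * a + 2 ≤ e + (L * a + L) := by omega
    have h2 : ((L * g * a + 2 : ℕ) : ℝ) ≤ ((e + (L * a + L) : ℕ) : ℝ) := by exact_mod_cast h1
    push_cast at h2
    linarith
  have hpos : (0 : ℝ) < (z : ℝ) ^ (L - 1) * (y : ℝ) ^ (K - 1) := by positivity
  have hCCpos : 0 < CC r L K M G := by
    have h1 : 0 < CC r L K M G * ((z : ℝ) ^ (L - 1) * (y : ℝ) ^ (K - 1)) :=
      lt_of_lt_of_le (by positivity) he3
    exact (pos_iff_pos_of_mul_pos h1).mpr hpos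
  have hlogmain : (e : ℝ) * ℓ ≤ Real.log (CC r L K M G) +
      ((L - 1 : ℕ) * Real.log z + (K - 1 : ℕ) * X) := by
    have h1 := Real.log_le_log (by positivity) he3
    rw [Real.log_mul hCCpos.ne' hpos.ne', Real.log_mul (by positivity) (by positivity), Real.log_pow,
      Real.log_pow, Real.log_pow, ← hℓ, ← hX] at h1
    exact h1
  have hzlog : Real.log z ≤ (1 + θ * p * ℓ) / r := by
    rw [le_div_iff₀ (by linarith)]
    have h1 : (z : ℝ) ^ r ≤ 2 * (D : ℝ) ^ (θ * p) := by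
      have h2 : (z : ℝ) ^ r ≤ (x : ℝ) ^ p + (y : ℝ) ^ q := by exact_mod_cast heq.le
      have h3 : (x : ℝ) ^ p ≤ (D : ℝ) ^ (θ * p) := by
        rw [Real.rpow_mul hD0R.le, Real.rpow_natCast]
        exact pow_le_pow_left₀ (Nat.cast_nonneg _) hx p
      linarith
    have h2 := Real.log_le_log (by positivity) h1
    rw [Real.log_mul (by norm_num) (by positivity), Real.log_pow, Real.log_rpow hD0R, ← hℓ] at h2
    have h3 := Real.log_two_lt_d9
    linarith
  have hlogCC : Real.log (CC r L K M G) ≤ C₁ * a * Real.log r := by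
    have h1 := log_CC_le' (q := r) (L := L) (K := K) (M := M) (G := G) (p := 2 * κ * (L * g * (a + 1)))
      (ρ := g) hr3 (by omega) hK1 ?_ ?_ ?_ (by omega) ?_ ?_ (by positivity)
    · refine h1.trans ?_
      have h2 : 0 ≤ Real.log r := Real.log_nonneg (by linarith)
      have ha2 : (a : ℝ) + 1 ≤ 2 * a := by
        have : (1 : ℝ) ≤ a := by exact_mod_cast ha1
        linarith
      push_cast
      rw [hC₁]
      calc ((g : ℝ) + 1) * (10 * L + 10) * (2 * κ * (L * g * (a + 1)) * Real.log r)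
          ≤ ((g : ℝ) + 1) * (10 * L + 10) * (2 * κ * (L * g * (2 * a)) * Real.log r) := by gcongr
        _ = _ := by ring
    · rw [hK]
      calc (g + 1) * a ≤ (2 * g) * (a + 1) := Nat.mul_le_mul (by omega) (by omega)
        _ ≤ (2 * κ * (L * g)) * (a + 1) := by
            apply Nat.mul_le_mul_right
            nlinarith [Nat.mul_le_mul hκ1 (Nat.mul_le_mul (show 1 ≤ L by omega) (le_refl g))]
        _ = _ := by ring
    · rw [hM]
      calc L * g * a ≤ L * g * (a + 1) := Nat.mul_le_mul_left _ (by omega)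
        _ ≤ 2 * κ * (L * g * (a + 1)) := Nat.le_mul_of_pos_left _ (by omega)
    · calc 2 = 2 * 1 * 1 := by norm_num
        _ ≤ 2 * κ * (L * g * (a + 1)) := by
            apply Nat.mul_le_mul (Nat.mul_le_mul_left _ hκ1)
            have : 0 < L * g * (a + 1) := by positivity
            omega
    · rw [hG]
      have h2 : q ≤ 2 * κ * (L * g * (a + 1)) := by
        calc q ≤ 2 * (κ * p) := hq2
          _ = 2 * κ * p := by ring
          _ ≤ _ := Nat.mul_le_mul_left _ hpa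
      have h3 : K ≤ 2 * κ * (L * g * (a + 1)) := by
        rw [hK]
        calc (g + 1) * a ≤ (2 * g) * (a + 1) := Nat.mul_le_mul (by omega) (by omega)
          _ ≤ (2 * κ * (L * g)) * (a + 1) := by
              apply Nat.mul_le_mul_right
              nlinarith [Nat.mul_le_mul hκ1 (Nat.mul_le_mul (show 1 ≤ L by omega) (le_refl g))]
          _ = _ := by ring
      calc (L - 1) * q + K ≤ L * (2 * κ * (L * g * (a + 1))) + 2 * κ * (L * g * (a + 1)) :=
            add_le_add (Nat.mul_le_mul (Nat.sub_le _ _) h2) h3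
        _ = _ := by ring
    · have h2 : ((L * K : ℕ) : ℝ) - M = L * a := by
        rw [hLKM]
        push_cast
        ring
      rw [h2, hM]
      push_cast
      apply le_of_eq
      ring
  have hlogr : Real.log r ≤ L * C := by
    have h1 := Real.log_le_sub_one_of_pos (show (0 : ℝ) < r by linarith)
    have h2 : (r : ℝ) ≤ L * C := by exact_mod_cast hrLC
    linarith
  have haR : (1 : ℝ) ≤ a := by exact_mod_cast ha1
  have hfin := final_real (L := L) (g := g) (a := a) (ℓ := ℓ) (θ := θ) (ε := ε) (X := X) (e := e)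
    (r := r) (c := C₁ * a * (L * C)) (p := p) (K := K) hLR (by exact_mod_cast hg1)
    (by exact_mod_cast hga) hεg hθ hLrR hε hℓ0.le he5 (by
      refine hlogmain.trans ?_
      have h1 : Real.log (CC r L K M G) ≤ C₁ * a * (L * C) :=
        hlogCC.trans (mul_le_mul_of_nonneg_left hlogr (by positivity))
      have h2 : ((L - 1 : ℕ) : ℝ) = L - 1 := by
        rw [Nat.cast_sub (by omega)]
        simp
      have h3 : ((K - 1 : ℕ) : ℝ) = K - 1 := by
        rw [Nat.cast_sub hK1]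
        simp
      rw [h2, h3]
      have h4 : ((L : ℝ) - 1) * Real.log z ≤ (L - 1) * ((1 + θ * p * ℓ) / r) :=
        mul_le_mul_of_nonneg_left hzlog (by linarith)
      linarith) (by exact_mod_cast hpa) (by rw [hK]; push_cast; ring) hXlt.le hX0
  have h1 : (L : ℝ) * a * ℓ ≤ a * (C₁ * (L * C) + 1) := by
    calc (L : ℝ) * a * ℓ ≤ C₁ * a * (L * C) + 1 := hfin
      _ ≤ a * (C₁ * (L * C) + 1) := by nlinarith
  have h2 : a * ℓ ≤ (L : ℝ) * a * ℓ := by
    have : 0 ≤ a * ℓ := by positivity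
    nlinarith
  have h3 : a * ℓ ≤ a * (C₁ * (L * C) + 1) := h2.trans h1
  have h4 := le_of_mul_le_mul_left h3 (by linarith)
  linarith

end Pool.Agent.K9h9.CB
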