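import Mathlib
import Pool.Agent.K9h9.Nil
import Pool.Agent.K9h9.CB.Core

/-!
# Small exponents: the truncated binomial series
-/

set_option autoImplicit false

namespace Pool.Agent.K9h9.CB

open Finset

/-- the truncated binomial series -/
theorem taylor {r Q P m : ℕ} (hr : r.Prime) (hP : 1 ≤ P) (hmr : IsCoprime (m : ℤ) r) {A b : ℤ}
    (hbm : (m : ℤ) ∣ b - 1) (hpow : (m : ℤ) ^ P ∣ b ^ r - (1 + A * m) ^ Q) :
    (m : ℤ) ^ P ∣ (r : ℤ) ^ (2 * P) * b -
      ∑ n ∈ range P, beta r Q n * (r : ℤ) ^ (2 * (P - n)) * (A * m) ^ n := by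
  have hcast : ∀ z : ℤ, ((m : ℤ) ^ P ∣ z) ↔ ((z : ZMod (m ^ P)) = 0) := by
    intro z
    rw [ZMod.intCast_zmod_eq_zero_iff_dvd]
    push_cast
    rfl
  have hunit : ∀ z : ℤ, IsCoprime (m : ℤ) z → IsUnit ((z : ZMod (m ^ P))) := by
    intro z hz
    obtain ⟨u, v, huv⟩ := (hz.pow_left (m := P))
    have h1 : (v : ZMod (m ^ P)) * z = 1 := by
      have h2 : ((u * (m : ℤ) ^ P + v * z : ℤ) : ZMod (m ^ P)) = 1 := by rw [huv]; simp
      push_cast at h2
      have h3 : ((m : ZMod (m ^ P)) ^ P) = 0 := by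
        have := ZMod.natCast_self (m ^ P)
        push_cast at this
        exact this
      rw [h3, mul_zero, zero_add] at h2
      exact h2
    exact IsUnit.of_mul_eq_one_right _ h1
  have uq : IsUnit ((r : ZMod (m ^ P))) := by
    have := hunit r hmr
    push_cast at this
    exact this
  obtain ⟨iq, hiq⟩ := uq.exists_left_inv
  obtain ⟨μ, hμ⟩ : ∃ μ : ZMod (m ^ P), μ = A * m := ⟨_, rfl⟩
  have hμP : μ ^ P = 0 := by
    rw [hμ, mul_pow]
    have h3 : ((m : ZMod (m ^ P)) ^ P) = 0 := by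
      have := ZMod.natCast_self (m ^ P)
      push_cast at this
      exact this
    rw [h3, mul_zero]
  obtain ⟨τ, hτ⟩ : ∃ τ : ZMod (m ^ P), τ = μ * iq ^ 2 := ⟨_, rfl⟩
  have hτP : τ ^ P = 0 := by rw [hτ, mul_pow, hμP, zero_mul]
  have hσ1 : pw r P τ r = 1 + μ := by
    rw [pw_self hr hτP, hτ]
    linear_combination μ * (r * iq + 1) * hiq
  have hτnil : IsNilpotent τ := ⟨P, hτP⟩
  have hpc : (pw r P τ Q) ^ r = (1 + μ) ^ Q := by
    rw [← pw_pow hr hτP, mul_comm, pw_pow hr hτP, hσ1]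
  obtain ⟨β, hβ⟩ : ∃ β : ZMod (m ^ P), β = pw r P τ Q := ⟨_, rfl⟩
  have hβnil : IsNilpotent (β - 1) := by
    rw [hβ]
    exact pw_sub_one_nilpotent hr hτnil hP Q
  obtain ⟨α, hα⟩ : ∃ α : ZMod (m ^ P), α = b := ⟨_, rfl⟩
  have hαr : α ^ r = (1 + μ) ^ Q := by
    rw [hcast] at hpow
    push_cast at hpow
    rw [hα, hμ]
    exact sub_eq_zero.mp hpow
  have hαnil : IsNilpotent (α - 1) := by
    refine ⟨P, ?_⟩
    have h1 := (hcast ((b - 1) ^ P)).mp (pow_dvd_pow_of_dvd hbm P)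
    push_cast at h1
    rw [hα]
    exact h1
  rw [← hβ] at hpc
  have hαβ : α = β := by
    have h1 : (α - β) * ∑ i ∈ range r, α ^ i * β ^ (r - 1 - i) = 0 := by
      have h2 := (Commute.all α β).mul_geom_sum₂ r
      rw [h2, hαr, hpc, sub_self]
    have h3 : IsUnit (∑ i ∈ range r, α ^ i * β ^ (r - 1 - i)) := by
      have h4 : IsNilpotent (∑ i ∈ range r, α ^ i * β ^ (r - 1 - i) - r) := by
        have h5 : ∑ i ∈ range r, α ^ i * β ^ (r - 1 - i) - (r : ZMod (m ^ P)) =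
            ∑ i ∈ range r, (α ^ i * β ^ (r - 1 - i) - 1) := by
          rw [sum_sub_distrib, sum_const, card_range, nsmul_eq_mul, mul_one]
        rw [h5]
        refine isNilpotent_sum ?_
        intro i _
        have h6 : α ^ i * β ^ (r - 1 - i) - 1 =
            (α ^ i - 1) * β ^ (r - 1 - i) + (β ^ (r - 1 - i) - 1) := by ring
        rw [h6]
        have h7 : ∀ (u : ZMod (m ^ P)) (n : ℕ), IsNilpotent (u - 1) → IsNilpotent (u ^ n - 1) := by
          intro u n hu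
          obtain ⟨v, hv⟩ := sub_one_dvd_pow_sub_one u n
          rw [hv]
          exact Commute.isNilpotent_mul_right (Commute.all _ _) hu
        refine Commute.isNilpotent_add (Commute.all _ _) ?_ (h7 β _ hβnil)
        exact Commute.isNilpotent_mul_right (Commute.all _ _) (h7 α _ hαnil)
      have h5 : ∑ i ∈ range r, α ^ i * β ^ (r - 1 - i) =
          (r : ZMod (m ^ P)) + (∑ i ∈ range r, α ^ i * β ^ (r - 1 - i) - r) := by ring
      rw [h5]
      exact IsNilpotent.isUnit_add_left_of_commute h4 uq (Commute.all _ _)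
    exact sub_eq_zero.mp ((h3.mul_left_eq_zero).mp h1)
  rw [hcast]
  push_cast
  rw [sub_eq_zero, ← hα, hαβ, hβ, pw, mul_sum, ← hμ]
  refine sum_congr rfl ?_
  intro n hn
  have hn' := mem_range.mp hn
  have h1 : (r : ZMod (m ^ P)) ^ (2 * P) = r ^ (2 * (P - n)) * r ^ (2 * n) := by
    rw [← pow_add]
    congr 1
    omega
  have h2 : (r : ZMod (m ^ P)) ^ (2 * n) * (iq ^ 2) ^ n = 1 := by
    rw [← pow_mul, ← mul_pow, mul_comm (r : ZMod (m ^ P)) iq, hiq, one_pow]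
  rw [h1, hτ, mul_pow]
  calc (r : ZMod (m ^ P)) ^ (2 * (P - n)) * r ^ (2 * n) * ((beta r Q n : ZMod (m ^ P)) *
        (μ ^ n * (iq ^ 2) ^ n)) =
      (beta r Q n : ZMod (m ^ P)) * r ^ (2 * (P - n)) * μ ^ n * (r ^ (2 * n) * (iq ^ 2) ^ n) := by ring
    _ = _ := by rw [h2, mul_one]

lemma beta_ne_zero {r Q n : ℕ} (hr : r.Prime) (hrQ : ¬ r ∣ Q) : beta r Q n ≠ 0 := by
  intro h
  have h1 := beta_cast hr Q n
  rw [h] at h1
  have hr0 : (r : ℚ) ≠ 0 := by exact_mod_cast hr.ne_zero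
  have h2 : bq (((Q : ℤ) : ℚ) / r) n ≠ 0 := by
    rw [bq]
    apply div_ne_zero
    · rw [Finset.prod_ne_zero_iff]
      intro i _ hi
      apply hrQ
      have h3 : ((Q : ℤ) : ℚ) / r = i := by linarith
      rw [div_eq_iff hr0] at h3
      have h4 : Q = i * r := by exact_mod_cast h3
      exact ⟨i, by rw [h4, mul_comm]⟩
    · exact_mod_cast n.factorial_ne_zero
  push_cast at h1
  rcases mul_eq_zero.mp h1.symm with h3 | h3
  · exact pow_ne_zero _ hr0 h3
  · push_cast at h2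
    exact h2 h3

/-- for small exponents and large `m` there are no solutions -/
theorem small_exponents {r Q P m n z : ℕ} (hr : r.Prime) (hr2 : r ≠ 2) (hrQ : ¬ r ∣ Q) (hP : 2 ≤ P)
    (hQP : Q ≤ P) (hmr : ¬ r ∣ m) (hn : n = m + 1 ∨ m = n + 1)
    (hz1 : (m : ℤ) ∣ z - 1 ∨ (m : ℤ) ∣ z + 1) (heq : Eqn m n z P Q r)
    (hm : 32 * P * (r ^ (6 * P) * 2 ^ P) < m) : False := by
  obtain ⟨s, t, hs, ht, hst⟩ := heq.signs
  have hodd : Odd r := hr.odd_of_ne_two hr2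
  have hr3 : 3 ≤ r := by
    have := hr.two_le
    omega
  have hm32 : 32 < m := by
    have h1 : 1 ≤ r ^ (6 * P) * 2 ^ P := Nat.one_le_iff_ne_zero.mpr (by positivity)
    nlinarith
  have hpm : ∀ u : ℤ, (u = 1 ∨ u = -1) → u ^ r = u := by
    rintro u (rfl | rfl)
    · exact one_pow r
    · exact hodd.neg_one_pow
  -- `n = A (1 + A m)`
  obtain ⟨A, hA, hnA⟩ : ∃ A : ℤ, (A = 1 ∨ A = -1) ∧ (n : ℤ) = A * (1 + A * m) := by
    rcases hn with h | h
    · refine ⟨1, Or.inl rfl, ?_⟩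
      rw [h]
      push_cast
      ring
    · refine ⟨-1, Or.inr rfl, ?_⟩
      rw [h]
      push_cast
      ring
  have hA2 : A * A = 1 := by rcases hA with h | h <;> rw [h] <;> norm_num
  obtain ⟨E, hE⟩ : ∃ E : ℤ, E = t * A ^ Q := ⟨_, rfl⟩
  have hE1 : E = 1 ∨ E = -1 := by
    have h1 : A ^ Q = 1 ∨ A ^ Q = -1 := by
      rcases hA with h | h
      · left
        rw [h, one_pow]
      · rw [h]
        exact neg_one_pow_eq_or ℤ Q
    rw [hE]
    rcases ht with h | h <;> rcases h1 with h2 | h2 <;> rw [h, h2] <;> norm_num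
  have hE2 : E * E = 1 := by rcases hE1 with h | h <;> rw [h] <;> norm_num
  have hEr := hpm E hE1
  obtain ⟨b, hb⟩ : ∃ b : ℤ, b = E * z := ⟨_, rfl⟩
  have hbr : b ^ r = E * s * m ^ P + (1 + A * m) ^ Q := by
    rw [hb, mul_pow, hEr, hst, hnA, mul_pow]
    have h1 : E * (t * (A ^ Q * (1 + A * (m : ℤ)) ^ Q)) = E * E * (1 + A * m) ^ Q := by
      rw [hE]
      ring
    rw [mul_add, h1, hE2]
    ring
  have hP0 : P ≠ 0 := by omega
  have hbm : (m : ℤ) ∣ b - 1 := by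
    obtain ⟨β, hβ, hDβ⟩ : ∃ β : ℤ, (β = 1 ∨ β = -1) ∧ (m : ℤ) ∣ b - β := by
      obtain ⟨γ, hγ, hDγ⟩ : ∃ γ : ℤ, (γ = 1 ∨ γ = -1) ∧ (m : ℤ) ∣ z - γ := by
        rcases hz1 with h | h
        · exact ⟨1, Or.inl rfl, h⟩
        · exact ⟨-1, Or.inr rfl, by rw [sub_neg_eq_add]; exact h⟩
      refine ⟨E * γ, ?_, ?_⟩
      · rcases hE1 with h | h <;> rcases hγ with h' | h' <;> rw [h, h'] <;> norm_num
      · rw [hb, ← mul_sub]
        exact hDγ.mul_left _
    have h1 : (m : ℤ) ∣ b ^ r - β := by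
      have h2 := hDβ.trans (sub_dvd_pow_sub_pow b β r)
      rwa [hpm β hβ] at h2
    have h2 : (m : ℤ) ∣ (1 + A * m) ^ Q - 1 := by
      have h3 := sub_one_dvd_pow_sub_one (1 + A * (m : ℤ)) Q
      rw [add_sub_cancel_left] at h3
      exact (Dvd.intro_left A rfl).trans h3
    have h3 : (m : ℤ) ∣ E * s * (m : ℤ) ^ P := (dvd_pow_self _ hP0).mul_left _
    have h4 : (m : ℤ) ∣ 1 - β := by
      have h5 := dvd_sub (dvd_sub h1 h2) h3
      have h6 : b ^ r - β - ((1 + A * m) ^ Q - 1) - E * s * (m : ℤ) ^ P = 1 - β := by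
        rw [hbr]
        ring
      rwa [h6] at h5
    rcases hβ with h5 | h5
    · rw [h5] at hDβ
      exact hDβ
    · exfalso
      rw [h5] at h4
      have h6 := Int.le_of_dvd (by norm_num) h4
      have : (32 : ℤ) < m := by exact_mod_cast hm32
      linarith
  have hmrc : IsCoprime (m : ℤ) (r : ℤ) := by
    rw [Nat.isCoprime_iff_coprime, Nat.coprime_comm]
    exact (Nat.Prime.coprime_iff_not_dvd hr).mpr hmr
  have hdvd := taylor (Q := Q) (P := P) hr (by omega) hmrc (A := A) hbm (by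
    rw [hbr, add_sub_cancel_right]
    exact Dvd.intro_left _ rfl)
  -- sizes
  obtain ⟨H, hH⟩ : ∃ H : ℤ, H = (r : ℤ) ^ (2 * P) * 2 ^ P := ⟨_, rfl⟩
  have hH1 : 1 ≤ H := by
    rw [hH]
    exact_mod_cast (Nat.one_le_iff_ne_zero.mpr (by positivity) : 1 ≤ r ^ (2 * P) * 2 ^ P)
  obtain ⟨c, hc⟩ : ∃ c : ℕ → ℤ, c = fun k => beta r Q k * (r : ℤ) ^ (2 * (P - k)) * A ^ k := ⟨_, rfl⟩
  have hAk : ∀ k, |A ^ k| = 1 := by
    intro k
    rw [abs_pow]
    rcases hA with h | h <;> rw [h] <;> norm_num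
  have hcH : ∀ k < P, |c k| ≤ H := by
    intro k hk
    rw [hc]
    simp only
    rw [abs_mul, abs_mul, hAk, mul_one]
    have h1 := abs_beta_le hr (g := (Q : ℤ)) (G := P) (by positivity) (by
      have h2 : Q ≤ P * r := hQP.trans (Nat.le_mul_of_pos_right _ hr.pos)
      exact_mod_cast h2) k
    have h2 : |(r : ℤ) ^ (2 * (P - k))| = (r : ℤ) ^ (2 * (P - k)) := abs_of_nonneg (by positivity)
    rw [h2, hH]
    calc |beta r Q k| * (r : ℤ) ^ (2 * (P - k)) ≤ (r ^ (2 * k) * 2 ^ P) * (r : ℤ) ^ (2 * (P - k)) := by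
          gcongr
      _ = (r : ℤ) ^ (2 * P) * 2 ^ P := by
          rw [show 2 * P = 2 * k + 2 * (P - k) by omega, pow_add]
          ring
  obtain ⟨V, hV⟩ : ∃ V : ℤ, V = ∑ k ∈ range P, c k * (m : ℤ) ^ k := ⟨_, rfl⟩
  have hdvd2 : (m : ℤ) ^ P ∣ (r : ℤ) ^ (2 * P) * b - V := by
    have h1 : ∑ k ∈ range P, beta r Q k * (r : ℤ) ^ (2 * (P - k)) * (A * m) ^ k = V := by
      rw [hV, hc]
      refine sum_congr rfl ?_
      intro k _
      rw [mul_pow]
      ring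
    rwa [h1] at hdvd
  have hm0 : (0 : ℤ) < m := by
    have : (32 : ℤ) < m := by exact_mod_cast hm32
    linarith
  obtain ⟨P', hP'⟩ : ∃ P', P = P' + 2 := ⟨P - 2, by omega⟩
  -- the lower terms
  obtain ⟨W, hW⟩ : ∃ W : ℤ, W = ∑ k ∈ range (P' + 1), c k * (m : ℤ) ^ k := ⟨_, rfl⟩
  have hVW : V = W + c (P' + 1) * (m : ℤ) ^ (P' + 1) := by
    rw [hV, hW, hP', sum_range_succ]
  have hWle : |W| ≤ (P' + 1) * (H * (m : ℤ) ^ P') := by
    rw [hW]
    refine (abs_sum_le_sum_abs _ _).trans ?_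
    have h1 : ∀ k ∈ range (P' + 1), |c k * (m : ℤ) ^ k| ≤ H * (m : ℤ) ^ P' := by
      intro k hk
      have hk' := mem_range.mp hk
      rw [abs_mul, abs_of_pos (pow_pos hm0 k)]
      have h2 := hcH k (by omega)
      have h3 : (m : ℤ) ^ k ≤ (m : ℤ) ^ P' := pow_le_pow_right₀ (by linarith) (by omega)
      gcongr
    refine (sum_le_sum h1).trans ?_
    rw [sum_const, card_range, nsmul_eq_mul]
    push_cast
    exact le_refl _
  have hlead : 1 ≤ |c (P' + 1)| := by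
    apply Int.one_le_abs
    rw [hc]
    simp only
    apply mul_ne_zero
    · apply mul_ne_zero (beta_ne_zero hr hrQ)
      have : (r : ℤ) ≠ 0 := by exact_mod_cast hr.ne_zero
      positivity
    · intro h
      have := hAk (P' + 1)
      rw [h, abs_zero] at this
      norm_num at this
  obtain ⟨T, hT⟩ : ∃ T : ℤ, T = (r : ℤ) ^ (6 * P) * 2 ^ P := ⟨_, rfl⟩
  have hT1 : 1 ≤ T := by
    rw [hT]
    exact_mod_cast (Nat.one_le_iff_ne_zero.mpr (by positivity) : 1 ≤ r ^ (6 * P) * 2 ^ P)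
  have hHT : H ≤ T := by
    rw [hH, hT]
    apply mul_le_mul_of_nonneg_right _ (by positivity)
    apply pow_le_pow_right₀ _ (by omega)
    exact_mod_cast hr.one_lt.le
  have hmT : 32 * P * T < m := by
    rw [hT]
    exact_mod_cast hm
  have hP2 : (2 : ℤ) ≤ P := by exact_mod_cast hP
  have hPT : T ≤ P * T := by nlinarith
  have hPHT : P * H ≤ P * T := by
    apply mul_le_mul_of_nonneg_left hHT
    linarith
  -- the size of `z`
  have hzr : (z : ℤ) ^ 3 ≤ 2 * (2 ^ P * (m : ℤ) ^ P) := by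
    rcases Nat.eq_zero_or_pos z with h0 | h0
    · rw [h0]
      positivity
    · have h1 : z ^ 3 ≤ z ^ r := Nat.pow_le_pow_right h0 hr3
      have h2 : n ≤ 2 * m := by omega
      have h3 : n ^ Q ≤ (2 * m) ^ P := by
        rcases Nat.eq_zero_or_pos n with h4 | h4
        · omega
        · exact (Nat.pow_le_pow_right h4 hQP).trans (Nat.pow_le_pow_left h2 P)
      have h4 : m ^ P ≤ (2 * m) ^ P := Nat.pow_le_pow_left (by omega) P
      have h5 : z ^ 3 ≤ 2 * (2 ^ P * m ^ P) := by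
        rw [← mul_pow]
        have := heq.le
        omega
      exact_mod_cast h5
  obtain ⟨Z, hZ⟩ : ∃ Z : ℤ, Z = (r : ℤ) ^ (2 * P) * z := ⟨_, rfl⟩
  have hZ0 : 0 ≤ Z := by rw [hZ]; positivity
  have hZabs : |(r : ℤ) ^ (2 * P) * b| = Z := by
    rw [abs_mul, abs_of_nonneg (by positivity : (0 : ℤ) ≤ (r : ℤ) ^ (2 * P)), hb, abs_mul, hZ]
    have h1 : |E| = 1 := by rcases hE1 with h | h <;> rw [h] <;> norm_num
    rw [h1, one_mul, Nat.abs_cast]
  have hZ3 : Z ^ 3 ≤ 2 * T * (m : ℤ) ^ P := by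
    rw [hZ, mul_pow, ← pow_mul, hT]
    calc (r : ℤ) ^ (2 * P * 3) * (z : ℤ) ^ 3 ≤ (r : ℤ) ^ (2 * P * 3) * (2 * (2 ^ P * (m : ℤ) ^ P)) := by
          gcongr
      _ = _ := by ring
  have h2Z3 : (2 * Z) ^ 3 < (m : ℤ) ^ (P + 1) := by
    calc (2 * Z) ^ 3 = 8 * Z ^ 3 := by ring
      _ ≤ 8 * (2 * T * (m : ℤ) ^ P) := by linarith
      _ = (16 * T) * (m : ℤ) ^ P := by ring
      _ < m * (m : ℤ) ^ P := by
          apply mul_lt_mul_of_pos_right _ (pow_pos hm0 P)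
          linarith
      _ = _ := by ring
  have h2Z : 2 * Z < (m : ℤ) ^ P := by
    apply lt_of_pow_lt_pow_left₀ 3 (by positivity)
    refine h2Z3.trans_le ?_
    rw [← pow_mul]
    exact pow_le_pow_right₀ (by linarith) (by omega)
  have hmP : (m : ℤ) ^ P = m * (m * (m : ℤ) ^ P') := by
    rw [hP']
    ring
  have hmP1 : (m : ℤ) ^ (P' + 1) = m * (m : ℤ) ^ P' := by ring
  have hmP'0 : 0 < (m : ℤ) ^ P' := pow_pos hm0 _
  have hP'P : ((P' : ℤ) + 1) ≤ P := by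
    have : P' + 1 ≤ P := by omega
    exact_mod_cast this
  have hWle2 : 2 * |W| ≤ m * (m : ℤ) ^ P' := by
    calc 2 * |W| ≤ 2 * ((P' + 1) * (H * (m : ℤ) ^ P')) := by linarith
      _ ≤ 2 * (P * (H * (m : ℤ) ^ P')) := by
          have : 0 ≤ H * (m : ℤ) ^ P' := by positivity
          nlinarith
      _ = (2 * (P * H)) * (m : ℤ) ^ P' := by ring
      _ ≤ m * (m : ℤ) ^ P' := by
          apply mul_le_mul_of_nonneg_right _ hmP'0.le
          linarith
  have hc1 := hcH (P' + 1) (by omega)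
  have hVle : 2 * |V| < (m : ℤ) ^ P := by
    have h1 : |V| ≤ |W| + |c (P' + 1)| * (m * (m : ℤ) ^ P') := by
      rw [hVW, hmP1]
      refine (abs_add_le _ _).trans ?_
      rw [abs_mul, abs_of_pos (mul_pos hm0 hmP'0)]
    have h2 : |c (P' + 1)| * (m * (m : ℤ) ^ P') ≤ H * (m * (m : ℤ) ^ P') := by
      apply mul_le_mul_of_nonneg_right hc1
      positivity
    have h3 : (1 + 2 * H) * (m * (m : ℤ) ^ P') < m * (m * (m : ℤ) ^ P') := by
      apply mul_lt_mul_of_pos_right _ (mul_pos hm0 hmP'0)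
      nlinarith
    rw [hmP]
    linarith
  have hzero : (r : ℤ) ^ (2 * P) * b - V = 0 := by
    by_contra hne
    have h1 := Int.le_of_dvd (abs_pos.mpr hne) ((dvd_abs _ _).mpr hdvd2)
    have h2 := abs_sub ((r : ℤ) ^ (2 * P) * b) V
    rw [hZabs] at h2
    linarith
  have hVZ : |V| = Z := by
    have h1 : V = (r : ℤ) ^ (2 * P) * b := by linarith
    rw [h1, hZabs]
  have hlow : (m : ℤ) ^ (P' + 1) ≤ 2 * Z := by
    have h1 : |c (P' + 1) * (m : ℤ) ^ (P' + 1)| ≤ |V| + |W| := by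
      have h2 : c (P' + 1) * (m : ℤ) ^ (P' + 1) = V - W := by rw [hVW]; ring
      rw [h2]
      exact abs_sub _ _
    rw [abs_mul, hmP1, abs_of_pos (mul_pos hm0 hmP'0)] at h1
    have h2 : 1 * (m * (m : ℤ) ^ P') ≤ |c (P' + 1)| * (m * (m : ℤ) ^ P') := by
      apply mul_le_mul_of_nonneg_right hlead
      positivity
    rw [hmP1, ← hVZ]
    linarith
  have h1 : ((m : ℤ) ^ (P' + 1)) ^ 3 ≤ (2 * Z) ^ 3 := pow_le_pow_left₀ (by positivity) hlow 3
  rw [← pow_mul] at h1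
  have h2 := h1.trans_lt h2Z3
  have h3 := (pow_lt_pow_iff_right₀ (by linarith)).mp h2
  omega

end Pool.Agent.K9h9.CB
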