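import Mathlib
import Pool.Agent.K9h9.CB.PartB
import Pool.Agent.K9h9.CB.Taylor
import Pool.Agent.K9h9.Elem

/-!
# Consecutive bases
-/

set_option autoImplicit false

namespace Pool.Agent.K9h9.CB

open Finset

/-- the data of a solution with the bases `m` and `n = A (1 + A m)` -/
lemma setup {m n z P Q r : ℕ} (hn : n = m + 1 ∨ m = n + 1) (heq : Eqn m n z P Q r) :
    ∃ s t A : ℤ, (s = 1 ∨ s = -1) ∧ (t = 1 ∨ t = -1) ∧ (A = 1 ∨ A = -1) ∧
      (n : ℤ) = A * (1 + A * m) ∧ (z : ℤ) ^ r = s * m ^ P + t * n ^ Q := by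
  obtain ⟨s, t, hs, ht, hst⟩ := heq.signs
  rcases hn with h | h
  · refine ⟨s, t, 1, hs, ht, Or.inl rfl, ?_, hst⟩
    rw [h]
    push_cast
    ring
  · refine ⟨s, t, -1, hs, ht, Or.inr rfl, ?_, hst⟩
    rw [h]
    push_cast
    ring

lemma not_sq_dvd {r m : ℕ} (hr : r.Prime) (hφ : ¬ r ∣ m.totient) : ¬ r ^ 2 ∣ m := by
  intro h
  apply hφ
  refine Dvd.dvd.trans ?_ (Nat.totient_dvd_of_dvd h)
  rw [Nat.totient_prime_pow hr (by norm_num)]
  simp

lemma pm_pow {r : ℕ} (hodd : Odd r) {u : ℤ} (hu : u = 1 ∨ u = -1) : u ^ r = u := by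
  rcases hu with rfl | rfl
  · exact one_pow r
  · exact hodd.neg_one_pow

lemma pm_mul_pow {t A : ℤ} (ht : t = 1 ∨ t = -1) (hA : A = 1 ∨ A = -1) (Q : ℕ) :
    t * A ^ Q = 1 ∨ t * A ^ Q = -1 := by
  have h1 : A ^ Q = 1 ∨ A ^ Q = -1 := by
    rcases hA with h | h
    · left
      rw [h, one_pow]
    · rw [h]
      exact neg_one_pow_eq_or ℤ Q
  rcases ht with h | h <;> rcases h1 with h2 | h2 <;> rw [h, h2] <;> norm_num

lemma fermat_dvd {r : ℕ} (hr : r.Prime) (u : ℤ) : (r : ℤ) ∣ u ^ r - u := by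
  have := Fact.mk hr
  rw [← ZMod.intCast_zmod_eq_zero_iff_dvd]
  push_cast
  rw [ZMod.pow_card, sub_self]

lemma add_pow_two_dvd (x : ℤ) (Q : ℕ) : x ^ 2 ∣ (1 + x) ^ Q - (1 + Q * x) := by
  induction Q with
  | zero => simp
  | succ Q ih =>
    have h : (1 + x) ^ (Q + 1) - (1 + ((Q + 1 : ℕ) : ℤ) * x) =
        ((1 + x) ^ Q - (1 + Q * x)) * (1 + x) + x ^ 2 * Q := by
      push_cast
      ring
    rw [h]
    exact dvd_add (ih.mul_right _) (Dvd.intro _ rfl)

/-- `r` does not divide `m` -/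
lemma not_dvd_m {m n z P Q r : ℕ} (hr : r.Prime) (hr2 : r ≠ 2) (hφ : ¬ r ∣ m.totient) (hrQ : ¬ r ∣ Q)
    (hP : 2 ≤ P) (hn : n = m + 1 ∨ m = n + 1) (heq : Eqn m n z P Q r) : ¬ r ∣ m := by
  intro hrm
  obtain ⟨s, t, A, hs, ht, hA, hnA, hst⟩ := setup hn heq
  have hodd : Odd r := hr.odd_of_ne_two hr2
  obtain ⟨E, hE⟩ : ∃ E : ℤ, E = t * A ^ Q := ⟨_, rfl⟩
  have hE1 : E = 1 ∨ E = -1 := by rw [hE]; exact pm_mul_pow ht hA Q
  have hEr := pm_pow hodd hE1
  have hrp : Prime (r : ℤ) := Nat.prime_iff_prime_int.mp hr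
  have hrm' : (r : ℤ) ∣ m := by exact_mod_cast hrm
  -- modulo `r ^ 2`
  have h1 : (r : ℤ) ^ 2 ∣ (z : ℤ) ^ r - E * (1 + Q * (A * m)) := by
    have h2 : (r : ℤ) ^ 2 ∣ s * (m : ℤ) ^ P :=
      ((pow_dvd_pow_of_dvd hrm' 2).trans (pow_dvd_pow _ hP)).mul_left _
    have h3 : (r : ℤ) ^ 2 ∣ (1 + A * (m : ℤ)) ^ Q - (1 + Q * (A * m)) := by
      refine Dvd.dvd.trans ?_ (add_pow_two_dvd (A * (m : ℤ)) Q)
      have h4 : (A * (m : ℤ)) ^ 2 = A ^ 2 * m ^ 2 := by ring
      rw [h4]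
      exact (pow_dvd_pow_of_dvd hrm' 2).mul_left _
    have h4 : (z : ℤ) ^ r - E * (1 + Q * (A * m)) =
        s * m ^ P + E * ((1 + A * m) ^ Q - (1 + Q * (A * m))) := by
      rw [hst, hnA, mul_pow, hE]
      ring
    rw [h4]
    exact dvd_add h2 (h3.mul_left _)
  have h2 : (r : ℤ) ∣ z - E := by
    have h3 : (r : ℤ) ∣ (z : ℤ) ^ r - E := by
      have h4 : (r : ℤ) ∣ (z : ℤ) ^ r - E * (1 + Q * (A * m)) := (dvd_pow_self _ two_ne_zero).trans h1
      have h5 : (r : ℤ) ∣ E * (Q * (A * m)) := ((hrm'.mul_left _).mul_left _).mul_left _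
      have h6 := dvd_add h4 h5
      have h7 : (z : ℤ) ^ r - E * (1 + Q * (A * m)) + E * (Q * (A * m)) = (z : ℤ) ^ r - E := by ring
      rwa [h7] at h6
    have h4 := dvd_sub h3 (fermat_dvd hr z)
    have h5 : (z : ℤ) ^ r - E - ((z : ℤ) ^ r - z) = z - E := by ring
    rwa [h5] at h4
  have h3 : (r : ℤ) ^ 2 ∣ (z : ℤ) ^ r - E := by
    have h4 := dvd_sub_pow_of_dvd_sub h2 1
    rw [pow_one, hEr] at h4
    exact h4
  have h4 : (r : ℤ) ^ 2 ∣ E * A * (Q * m) := by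
    have h5 := dvd_sub h3 h1
    have h6 : (z : ℤ) ^ r - E - ((z : ℤ) ^ r - E * (1 + Q * (A * m))) = E * A * (Q * m) := by ring
    rwa [h6] at h5
  have h5 : (r : ℤ) ^ 2 ∣ (Q : ℤ) * m := by
    rcases hE1 with h | h <;> rcases hA with h' | h' <;> rw [h, h'] at h4 <;> simpa using h4
  have h6 : r ^ 2 ∣ Q * m := by exact_mod_cast h5
  have h7 : Nat.Coprime (r ^ 2) Q := by
    apply Nat.Coprime.pow_left
    exact (Nat.Prime.coprime_iff_not_dvd hr).mpr hrQ
  exact not_sq_dvd hr hφ (h7.dvd_of_dvd_mul_left h6)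

/-- the case of a divisor `r` of `Q` -/
lemma dvd_case {m n z P Q r : ℕ} (hr : r.Prime) (hr2 : r ≠ 2) (hφ : ¬ r ∣ m.totient) (hrQ : r ∣ Q)
    (hQ : 1 ≤ Q) (hQP : Q ≤ P) (hn : n = m + 1 ∨ m = n + 1) (hm : 16 ≤ m) (heq : Eqn m n z P Q r) :
    False := by
  obtain ⟨s, t, A, hs, ht, hA, hnA, hst⟩ := setup hn heq
  have hodd : Odd r := hr.odd_of_ne_two hr2
  have hr3 : 3 ≤ r := by
    have := hr.two_le
    omega
  obtain ⟨Q', hQ'⟩ := hrQ
  have hrleQ : r ≤ Q := Nat.le_of_dvd (by omega) ⟨Q', hQ'⟩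
  obtain ⟨w, hw⟩ : ∃ w, w = n ^ Q' := ⟨_, rfl⟩
  have hwr : w ^ r = n ^ Q := by rw [hw, ← pow_mul, hQ', mul_comm]
  obtain ⟨v, hv⟩ : ∃ v : ℤ, v = t * w := ⟨_, rfl⟩
  have hvr : v ^ r = t * n ^ Q := by
    rw [hv, mul_pow, pm_pow hodd ht]
    congr 1
    exact_mod_cast hwr
  have hdiff : (z : ℤ) ^ r - v ^ r = s * m ^ P := by rw [hvr, hst]; ring
  have hm0 : (0 : ℤ) < m := by
    have : 0 < m := by omega
    exact_mod_cast this
  have hcopnm : IsCoprime (m : ℤ) (n : ℤ) := by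
    rw [hnA]
    have h1 : IsCoprime (m : ℤ) A := by
      rcases hA with h | h
      · rw [h]; exact isCoprime_one_right
      · rw [h]; exact isCoprime_one_right.neg_right
    have h2 : IsCoprime (m : ℤ) (1 + A * m) := by
      refine ⟨-A, 1, ?_⟩
      ring
    exact h1.mul_right h2
  have hcopv : IsCoprime (m : ℤ) v := by
    have h1 : IsCoprime (m : ℤ) t := by
      rcases ht with h | h
      · rw [h]; exact isCoprime_one_right
      · rw [h]; exact isCoprime_one_right.neg_right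
    rw [hv, hw]
    push_cast
    exact h1.mul_right hcopnm.pow_right
  have hgen : ∀ D : ℕ, D ∣ m → ¬ r ∣ D → (D : ℤ) ^ P ∣ z - v := by
    intro D hDm hrD
    have hD0 : 0 < D := Nat.pos_of_dvd_of_pos hDm (by omega)
    have hDm' : (D : ℤ) ∣ m := by exact_mod_cast hDm
    have hφD : ¬ r ∣ (D ^ P).totient := by
      intro h
      rcases totient_pow_dvd hr (by omega) h with h1 | h1
      · exact hrD h1
      · exact hφ (h1.trans (Nat.totient_dvd_of_dvd hDm))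
    have h1 : ((D ^ P : ℕ) : ℤ) ∣ z - v := by
      refine dvd_sub_of_pow hr (by positivity) hφD ?_ ?_
      · push_cast
        exact (hcopv.of_isCoprime_of_dvd_left hDm').pow_left
      · rw [hdiff]
        push_cast
        exact (pow_dvd_pow_of_dvd hDm' P).mul_left _
    push_cast at h1
    exact h1
  have hkey : (m : ℤ) ^ P ∣ r * (z - v) := by
    by_cases hrm : r ∣ m
    · obtain ⟨m', hm'⟩ := hrm
      have hrm' : ¬ r ∣ m' := by
        rintro ⟨k, hk⟩
        apply not_sq_dvd hr hφ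
        exact ⟨k, by rw [hm', hk]; ring⟩
      have h1 := hgen m' ⟨r, by rw [hm']; ring⟩ hrm'
      have hrm2 : (r : ℤ) ∣ m := by
        rw [hm']
        push_cast
        exact Dvd.intro _ rfl
      have h2 : (r : ℤ) ∣ z - v := by
        have h3 : (r : ℤ) ∣ (z : ℤ) ^ r - v ^ r := by
          rw [hdiff]
          exact (hrm2.trans (dvd_pow_self _ (by omega))).mul_left _
        have h4 := dvd_sub (dvd_sub h3 (fermat_dvd hr z)) (dvd_neg.mpr (fermat_dvd hr v))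
        have h5 : (z : ℤ) ^ r - v ^ r - ((z : ℤ) ^ r - z) - -(v ^ r - v) = z - v := by ring
        rwa [h5] at h4
      have hrp : Prime (r : ℤ) := Nat.prime_iff_prime_int.mp hr
      have h3 : ¬ (r : ℤ) ∣ v := by
        intro h4
        exact hrp.not_isUnit (hcopv.isUnit_of_dvd' hrm2 h4)
      have h4 : ¬ (r : ℤ) ∣ (z : ℤ) := by
        intro h5
        apply h3
        have := dvd_sub h5 h2
        rwa [sub_sub_cancel] at this
      have h5 := Int.emultiplicity_pow_sub_pow hr hodd h2 h4 r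
      have h6 : (P : ℕ∞) ≤ emultiplicity (r : ℤ) ((z : ℤ) ^ r - v ^ r) := by
        apply le_emultiplicity_of_pow_dvd
        rw [hdiff]
        exact (pow_dvd_pow_of_dvd hrm2 P).mul_left _
      have h7 : emultiplicity r r = 1 := by
        apply (Nat.finiteMultiplicity_iff.mpr ⟨hr.ne_one, hr.pos⟩).emultiplicity_self
      rw [h5, h7] at h6
      have h8 : (r : ℤ) ^ (P - 1) ∣ z - v := by
        apply pow_dvd_of_le_emultiplicity
        have h9 : ((P - 1 : ℕ) : ℕ∞) + 1 = P := by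
          have : P - 1 + 1 = P := by omega
          exact_mod_cast this
        rw [← h9] at h6
        exact (ENat.add_le_add_iff_right (by simp)).mp h6
      have h9 : IsCoprime ((m' : ℤ) ^ P) ((r : ℤ) ^ (P - 1)) := by
        apply IsCoprime.pow
        rw [Nat.isCoprime_iff_coprime, Nat.coprime_comm]
        exact (Nat.Prime.coprime_iff_not_dvd hr).mpr hrm'
      have h10 := mul_dvd_mul_left (r : ℤ) (h9.mul_dvd h1 h8)
      have h11 : (r : ℤ) * ((m' : ℤ) ^ P * (r : ℤ) ^ (P - 1)) = (m : ℤ) ^ P := by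
        rw [hm']
        push_cast
        rw [mul_pow]
        obtain ⟨P', rfl⟩ : ∃ P', P = P' + 1 := ⟨P - 1, by omega⟩
        rw [Nat.add_sub_cancel]
        ring
      rwa [h11] at h10
    · exact (hgen m dvd_rfl hrm).mul_left _
  have hne : (z : ℤ) - v ≠ 0 := by
    intro h
    have h1 : (z : ℤ) = v := by linarith
    rw [h1, sub_self] at hdiff
    have h2 : (m : ℤ) ^ P ≠ 0 := by positivity
    rcases hs with h3 | h3 <;> rw [h3] at hdiff
    · rw [one_mul] at hdiff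
      exact h2 hdiff.symm
    · rw [neg_one_mul] at hdiff
      exact h2 (by linarith)
  have hle : m ^ P ≤ r * (z + w) := by
    have h1 : (m : ℤ) ^ P ≤ |r * (z - v)| := by
      apply Int.le_of_dvd _ ((dvd_abs _ _).mpr hkey)
      apply abs_pos.mpr
      exact mul_ne_zero (by exact_mod_cast hr.ne_zero) hne
    have h2 : |(r : ℤ) * (z - v)| ≤ r * (z + w) := by
      rw [abs_mul, Nat.abs_cast]
      apply mul_le_mul_of_nonneg_left _ (by positivity)
      refine (abs_sub _ _).trans ?_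
      rw [Nat.abs_cast, hv, abs_mul, Nat.abs_cast]
      rcases ht with h | h <;> rw [h] <;> simp
    exact_mod_cast h1.trans h2
  -- sizes
  obtain ⟨u, hu⟩ : ∃ u, u = max z w := ⟨_, rfl⟩
  have hnP : n ^ Q ≤ (2 * m) ^ P := by
    have h2 : n ≤ 2 * m := by omega
    exact (Nat.pow_le_pow_right (by omega) hQP).trans (Nat.pow_le_pow_left h2 P)
  have hmP : m ^ P ≤ (2 * m) ^ P := Nat.pow_le_pow_left (by omega) P
  have hur : u ^ r ≤ 2 * (2 * m) ^ P := by
    rcases le_total z w with h | h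
    · rw [hu, max_eq_right h, hwr]
      omega
    · rw [hu, max_eq_left h]
      have := heq.le
      omega
  have hzw : z + w ≤ 2 * u := by
    have h1 : z ≤ u := by rw [hu]; exact le_max_left _ _
    have h2 : w ≤ u := by rw [hu]; exact le_max_right _ _
    omega
  have hrP : r ≤ 2 ^ P := (hrleQ.trans hQP).trans Nat.lt_two_pow_self.le
  have hbig : (m ^ P) ^ r ≤ 2 ^ (P * r + r + 1 + P) * m ^ P := by
    calc (m ^ P) ^ r ≤ (2 ^ P * (2 * u)) ^ r :=
          Nat.pow_le_pow_left (hle.trans (Nat.mul_le_mul hrP hzw)) r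
      _ = 2 ^ (P * r) * 2 ^ r * u ^ r := by
          rw [mul_pow, mul_pow, ← pow_mul]
          ring
      _ ≤ 2 ^ (P * r) * 2 ^ r * (2 * (2 * m) ^ P) := Nat.mul_le_mul_left _ hur
      _ = _ := by
          rw [mul_pow]
          ring
  have hP3 : r ≤ P := hrleQ.trans hQP
  have hsplit : (m ^ P) ^ r = m ^ (P * (r - 1)) * m ^ P := by
    rw [← pow_mul, ← pow_add]
    congr 1
    obtain ⟨r', rfl⟩ : ∃ r', r = r' + 1 := ⟨r - 1, by omega⟩
    rw [Nat.add_sub_cancel]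
    ring
  rw [hsplit] at hbig
  have h1 := Nat.le_of_mul_le_mul_right hbig (by positivity)
  have h2 : 2 ^ (4 * (P * (r - 1))) ≤ 2 ^ (P * r + r + 1 + P) := by
    calc 2 ^ (4 * (P * (r - 1))) = 16 ^ (P * (r - 1)) := by rw [pow_mul]; norm_num
      _ ≤ m ^ (P * (r - 1)) := Nat.pow_le_pow_left hm _
      _ ≤ _ := h1
  have h3 := (Nat.pow_le_pow_iff_right (by norm_num)).mp h2
  obtain ⟨r', rfl⟩ : ∃ r', r = r' + 3 := ⟨r - 3, by omega⟩
  have h4 : r' + 3 - 1 = r' + 2 := by omega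
  rw [h4] at h3
  nlinarith

theorem partC : ∃ N : ℕ, ∀ m n z P Q r : ℕ, N ≤ m → (n = m + 1 ∨ m = n + 1) → 1 ≤ Q → Q ≤ P →
    2 ≤ P → r.Prime → r ≠ 2 → ¬ r ∣ m.totient → 2 ≤ z → ¬ Eqn m n z P Q r := by
  obtain ⟨C, hC⟩ := partA 2
  obtain ⟨D₀, P₀, hB⟩ := partB (11 / 10) (1 / 10) (by norm_num) (by norm_num) 2 le_rfl
  obtain ⟨R₀, hR₀⟩ : ∃ R₀, R₀ = 2 * C + 1 := ⟨_, rfl⟩
  refine ⟨D₀ + 2 ^ 10 + (32 * P₀ * (R₀ ^ (6 * P₀) * 2 ^ P₀) + 1), ?_⟩
  intro m n z P Q r hm hn hQ hQP hP hr hr2 hφ hz heq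
  have hmD : D₀ ≤ m := by omega
  have hm10 : 2 ^ 10 ≤ m := by omega
  have hmT : 32 * P₀ * (R₀ ^ (6 * P₀) * 2 ^ P₀) < m := by omega
  have hm16 : 16 ≤ m := by omega
  by_cases hrQ : r ∣ Q
  · exact dvd_case hr hr2 hφ hrQ hQ hQP hn hm16 heq
  have hrm := not_dvd_m hr hr2 hφ hrQ hP hn heq
  have hodd : Odd r := hr.odd_of_ne_two hr2
  have hr3 : 3 ≤ r := by
    have := hr.two_le
    omega
  -- the residues
  have hn1 : (m : ℤ) ∣ n - 1 ∨ (m : ℤ) ∣ n + 1 := by
    rcases hn with h | h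
    · left
      rw [h]
      push_cast
      rw [add_sub_cancel_right]
    · right
      rw [h]
      push_cast
      exact dvd_rfl
  have hz1 : (m : ℤ) ∣ z - 1 ∨ (m : ℤ) ∣ z + 1 := by
    obtain ⟨s, t, A, hs, ht, hA, hnA, hst⟩ := setup hn heq
    obtain ⟨E, hE⟩ : ∃ E : ℤ, E = t * A ^ Q := ⟨_, rfl⟩
    have hE1 : E = 1 ∨ E = -1 := by rw [hE]; exact pm_mul_pow ht hA Q
    have h1 : (m : ℤ) ∣ (z : ℤ) ^ r - E ^ r := by
      rw [pm_pow hodd hE1]
      have h2 : (m : ℤ) ∣ s * (m : ℤ) ^ P := (dvd_pow_self _ (by omega)).mul_left _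
      have h3 : (m : ℤ) ∣ (1 + A * m) ^ Q - 1 := by
        have h4 := sub_one_dvd_pow_sub_one (1 + A * (m : ℤ)) Q
        rw [add_sub_cancel_left] at h4
        exact (Dvd.intro_left A rfl).trans h4
      have h4 : (z : ℤ) ^ r - E = s * m ^ P + E * ((1 + A * m) ^ Q - 1) := by
        rw [hst, hnA, mul_pow, hE]
        ring
      rw [h4]
      exact dvd_add h2 (h3.mul_left _)
    have h2 : (m : ℤ) ∣ z - E := by
      refine dvd_sub_of_pow hr (by omega) hφ ?_ h1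
      rcases hE1 with h | h
      · rw [h]; exact isCoprime_one_right
      · rw [h]; exact isCoprime_one_right.neg_right
    rcases hE1 with h | h
    · left
      rwa [h] at h2
    · right
      rwa [h, sub_neg_eq_add] at h2
  have hcop : Nat.Coprime Q r := by
    rw [Nat.coprime_comm]
    exact (Nat.Prime.coprime_iff_not_dvd hr).mpr hrQ
  have hn2 : 2 ≤ n := by omega
  have hnm : n ≤ m + 1 := by omega
  have hnm2 : n ≤ m ^ 2 := by nlinarith
  -- the bound for `r`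
  have hrC : r ≤ 2 * C := by
    have h1 := (hC m n z P Q r m (by omega) dvd_rfl hn2 hz (sq_of_pm hn2 hn1) (sq_of_pm hz hz1) (by omega)
      hr.pos hcop heq (Nat.le_self_pow (by norm_num) m) (by
        rw [pow_mul]
        exact (Nat.pow_le_pow_left hnm2 Q).trans (Nat.pow_le_pow_right (by positivity) hQP))).1
    have h2 : m ^ r ≤ m ^ (2 * C) := by
      rw [pow_mul]
      exact h1.trans (Nat.pow_le_pow_left hnm2 C)
    exact (Nat.pow_le_pow_iff_right (by omega)).mp h2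
  rcases Nat.lt_or_ge P P₀ with hlt | hge
  · -- small exponents
    refine small_exponents hr hr2 hrQ hP hQP hrm hn hz1 heq (lt_of_le_of_lt ?_ hmT)
    apply Nat.mul_le_mul (Nat.mul_le_mul_left _ hlt.le)
    apply Nat.mul_le_mul
    · calc r ^ (6 * P) ≤ R₀ ^ (6 * P) := Nat.pow_le_pow_left (by omega) _
        _ ≤ R₀ ^ (6 * P₀) := Nat.pow_le_pow_right (by omega) (by omega)
    · exact Nat.pow_le_pow_right (by norm_num) hlt.le
  · -- large exponents
    have hmR : (2 : ℝ) ^ 10 ≤ m := by exact_mod_cast hm10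
    have hm1R : (1 : ℝ) < m := by
      refine lt_of_lt_of_le ?_ hmR
      norm_num
    have hm0R : (0 : ℝ) < m := by linarith
    have hm11 : (m : ℝ) + 1 ≤ (m : ℝ) ^ (11 / 10 : ℝ) := by
      have h1 : (2 : ℝ) ≤ (m : ℝ) ^ (1 / 10 : ℝ) := by
        have h2 : ((2 : ℝ) ^ 10) ^ (1 / 10 : ℝ) ≤ (m : ℝ) ^ (1 / 10 : ℝ) :=
          Real.rpow_le_rpow (by norm_num) hmR (by norm_num)
        have h3 : ((2 : ℝ) ^ 10) ^ (1 / 10 : ℝ) = 2 := by
          rw [← Real.rpow_natCast, ← Real.rpow_mul (by norm_num)]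
          norm_num
        linarith
      have h2 : (m : ℝ) ^ (11 / 10 : ℝ) = m * (m : ℝ) ^ (1 / 10 : ℝ) := by
        rw [show (11 / 10 : ℝ) = 1 + 1 / 10 by norm_num, Real.rpow_add hm0R, Real.rpow_one]
      rw [h2]
      nlinarith
    have hnR : (n : ℝ) ≤ (m : ℝ) + 1 := by exact_mod_cast hnm
    have hB1 := hB m n z P Q r m hmD hge hr hr2 (by omega) hrQ hrm dvd_rfl hn2 hz hn1 hz1 heq (by
        calc (m : ℝ) = (m : ℝ) ^ (1 : ℝ) := (Real.rpow_one _).symm
          _ ≤ _ := Real.rpow_le_rpow_of_exponent_le hm1R.le (by norm_num)) (by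
        rw [Real.rpow_mul hm0R.le, Real.rpow_natCast]
        have h1 : (1 : ℝ) ≤ (m : ℝ) ^ (11 / 10 : ℝ) := by linarith
        calc (n : ℝ) ^ Q ≤ ((m : ℝ) ^ (11 / 10 : ℝ)) ^ Q := by
              apply pow_le_pow_left₀ (Nat.cast_nonneg _)
              linarith
          _ ≤ _ := pow_le_pow_right₀ h1 hQP)
    have hrR : (3 : ℝ) ≤ r := by exact_mod_cast hr3
    have h1 : (m : ℝ) ^ (7 / 6 : ℝ) ≤ (m : ℝ) ^ (11 / 10 : ℝ) := by
      calc (m : ℝ) ^ (7 / 6 : ℝ) ≤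
            (m : ℝ) ^ (((2 : ℕ) : ℝ) * (1 - 11 / 10 * (((2 : ℕ) : ℝ) - 1) / r) - 1 / 10) := by
            apply Real.rpow_le_rpow_of_exponent_le hm1R.le
            have h2 : 11 / 10 * (((2 : ℕ) : ℝ) - 1) / r ≤ 11 / 30 := by
              rw [div_le_iff₀ (by linarith)]
              push_cast
              linarith
            push_cast at h2 ⊢
            linarith
        _ ≤ n := hB1
        _ ≤ _ := hnR.trans hm11
    have h2 := (Real.rpow_le_rpow_left_iff hm1R).mp h1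
    norm_num at h2

end Pool.Agent.K9h9.CB
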